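import Pool.Agent.X40.Crit2

/-!
# MP_99db3a_nt: the number of the real critical points of `Φ_{np}` is not monotone in `p`

For `n = 3 · 59` we have `N_{5 n} ≥ 7` and `N_{7 n} ≤ 5`.

The upper bound is Descartes' rule of signs for the transforms of `Φ'` and `Φ'(-x)` which map `(0, 1)` to
`(0, ∞)`; their coefficients are found in the kernel by Kronecker substitution. The lower bound follows
from the signs of `Φ'` at nine rational points.
-/

set_option autoImplicit false

namespace Pool.Agent.Results.MP_99db3a_nt.NotMonotone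

open Polynomial Pool.Agent.X40 Pool.Agent.X40.Kr Pool.Agent.X40.Cr

lemma primes1 : ∀ p ∈ [3, 7, 59], p.Prime := by
  intro p hp
  simp only [List.mem_cons, List.not_mem_nil, or_false] at hp
  rcases hp with rfl | rfl | rfl <;> norm_num

lemma primes1' : ∀ p ∈ [2, 3, 7, 59], p.Prime := by
  intro p hp
  simp only [List.mem_cons, List.not_mem_nil, or_false] at hp
  rcases hp with rfl | rfl | rfl | rfl <;> norm_num

lemma primes2 : ∀ p ∈ [3, 5, 59], p.Prime := by
  intro p hp
  simp only [List.mem_cons, List.not_mem_nil, or_false] at hp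
  rcases hp with rfl | rfl | rfl <;> norm_num

lemma primes2' : ∀ p ∈ [2, 3, 5, 59], p.Prime := by
  intro p hp
  simp only [List.mem_cons, List.not_mem_nil, or_false] at hp
  rcases hp with rfl | rfl | rfl | rfl <;> norm_num

lemma height1 : H (cyclotomic [3, 7, 59].prod ℤ) ≤ 2 ∧
    ∀ i < 697, (cyclotomic [3, 7, 59].prod ℤ).coeff i = dig2 16 697 2 (cv (2 ^ 16) [3, 7, 59]) i :=
  (Adm.cyc (B := 2 ^ 16) (by norm_num) primes1).height2 (n := 697) (by norm_num)
    (by decide +kernel) (by decide +kernel)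

lemma height1' : H (cyclotomic [2, 3, 7, 59].prod ℤ) ≤ 2 :=
  ((Adm.cyc (B := 2 ^ 16) (by norm_num) primes1').height2 (n := 697) (by norm_num)
    (by decide +kernel) (by decide +kernel)).1

lemma coeff_one : (cyclotomic [3, 7, 59].prod ℤ).coeff 1 ≠ 0 := by
  rw [height1.2 1 (by norm_num)]
  decide +kernel

theorem N_1239 : N 1239 ≤ 5 := by
  have h := N_le (l := [3, 7, 59]) primes1 (by decide) (by decide) (by decide) coeff_one
    (count_le (K := 712) (n := 696) (v := 2) (by norm_num) (by norm_num) primes1 (by decide) height1.1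
      (by decide +kernel))
    (count_le (K := 712) (n := 696) (v := 3) (by norm_num) (by norm_num) primes1' (by decide) height1'
      (by decide +kernel))
  exact h

theorem N_885 : 7 ≤ N 885 := by
  set P := derivative (cyclotomic 885 ℝ) with hP
  set Q := derivative (cyclotomic 1770 ℝ) with hQ
  have hneg : Q = -P.comp (-X) := derivative_neg (l := [3, 5, 59]) primes2 (by decide) (by decide)
  have hp : ∀ {a c : ℕ}, 0 < a → a < c → pos a c [3, 5, 59] = true → 0 < P.eval ((a : ℝ) / c) :=
    fun ha hac h => pos_of (l := [3, 5, 59]) primes2 (by decide) ha hac h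
  have hn : ∀ {a c : ℕ}, 0 < a → a < c → neg a c [3, 5, 59] = true → P.eval ((a : ℝ) / c) < 0 :=
    fun ha hac h => neg_of (l := [3, 5, 59]) primes2 (by decide) ha hac h
  have hp' : ∀ {a c : ℕ}, 0 < a → a < c → pos a c [2, 3, 5, 59] = true → 0 < Q.eval ((a : ℝ) / c) :=
    fun ha hac h => pos_of (l := [2, 3, 5, 59]) primes2' (by decide) ha hac h
  have hn' : ∀ {a c : ℕ}, 0 < a → a < c → neg a c [2, 3, 5, 59] = true → Q.eval ((a : ℝ) / c) < 0 :=
    fun ha hac h => neg_of (l := [2, 3, 5, 59]) primes2' (by decide) ha hac h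
  have a1 := hp (a := 1) (c := 2) (by norm_num) (by norm_num) (by decide +kernel)
  have a2 := hn (a := 9) (c := 10) (by norm_num) (by norm_num) (by decide +kernel)
  have a3 := hp (a := 499) (c := 500) (by norm_num) (by norm_num) (by decide +kernel)
  have b1 := hn' (a := 1) (c := 4) (by norm_num) (by norm_num) (by decide +kernel)
  have b2 := hp' (a := 7) (c := 10) (by norm_num) (by norm_num) (by decide +kernel)
  have b3 := hn' (a := 23) (c := 25) (by norm_num) (by norm_num) (by decide +kernel)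
  have b4 := hp' (a := 19) (c := 20) (by norm_num) (by norm_num) (by decide +kernel)
  have b5 := hn' (a := 99) (c := 100) (by norm_num) (by norm_num) (by decide +kernel)
  have b6 := hp' (a := 1999) (c := 2000) (by norm_num) (by norm_num) (by decide +kernel)
  obtain ⟨r1, r1a, r1b, r1c⟩ := root_between (by norm_num) (mul_neg_of_pos_of_neg a1 a2)
  obtain ⟨r2, r2a, r2b, r2c⟩ := root_between (by norm_num) (mul_neg_of_neg_of_pos a2 a3)
  obtain ⟨t1, t1a, t1b, t1c⟩ := root_between (by norm_num) (mul_neg_of_neg_of_pos b1 b2)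
  obtain ⟨t2, t2a, t2b, t2c⟩ := root_between (by norm_num) (mul_neg_of_pos_of_neg b2 b3)
  obtain ⟨t3, t3a, t3b, t3c⟩ := root_between (by norm_num) (mul_neg_of_neg_of_pos b3 b4)
  obtain ⟨t4, t4a, t4b, t4c⟩ := root_between (by norm_num) (mul_neg_of_pos_of_neg b4 b5)
  obtain ⟨t5, t5a, t5b, t5c⟩ := root_between (by norm_num) (mul_neg_of_neg_of_pos b5 b6)
  have hP0 : P ≠ 0 := by
    intro h
    rw [h, eval_zero] at a1
    exact lt_irrefl _ a1
  have ht : ∀ {t : ℝ}, Q.eval t = 0 → P.eval (-t) = 0 := by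
    intro t h
    rw [hneg, eval_neg, eval_comp, eval_neg, eval_X, neg_eq_zero] at h
    exact h
  push_cast at r1a r1b r2a r2b t1a t1b t2a t2b t3a t3b t4a t4b t5a t5b
  set L : List ℝ := [-t5, -t4, -t3, -t2, -t1, r1, r2] with hL
  have hnodup : L.Nodup := by
    have hs : L.Pairwise (· < ·) := by
      rw [hL]
      simp only [List.pairwise_cons, List.mem_cons, List.not_mem_nil, or_false, forall_eq_or_imp,
        forall_eq, IsEmpty.forall_iff, implies_true, List.Pairwise.nil, and_true]
      refine ⟨⟨?_, ?_, ?_, ?_, ?_, ?_⟩, ⟨?_, ?_, ?_, ?_, ?_⟩, ⟨?_, ?_, ?_, ?_⟩, ⟨?_, ?_, ?_⟩, ⟨?_, ?_⟩, ?_⟩ <;>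
        linarith
    exact hs.imp (fun h => ne_of_lt h)
  have hsub : (L : Multiset ℝ) ≤ P.roots := by
    rw [Multiset.le_iff_subset (Multiset.coe_nodup.2 hnodup)]
    intro x hx
    rw [Multiset.mem_coe, hL] at hx
    simp only [List.mem_cons, List.not_mem_nil, or_false] at hx
    rw [mem_roots hP0, IsRoot.def]
    rcases hx with rfl | rfl | rfl | rfl | rfl | rfl | rfl
    · exact ht t5c
    · exact ht t4c
    · exact ht t3c
    · exact ht t2c
    · exact ht t1c
    · exact r1c
    · exact r2c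
  have := Multiset.card_le_card hsub
  rw [Multiset.coe_card] at this
  exact this

/-- **Disproof of MP_99db3a_nt, Q1**: for `n = 3 · 59` and the primes `5 < 7`, which do not divide `n`, we
have `N_{5 n} ≥ 7 > 5 ≥ N_{7 n}`. -/
theorem result :
    (¬ ∀ n : ℕ, Squarefree n → Odd n → 1 < n → ∀ p p' : ℕ, p.Prime → p'.Prime → p < p' → ¬ p ∣ n → ¬ p' ∣ n →
      N (n * p) ≤ N (n * p')) ∧
    7 ≤ N (3 * 59 * 5) ∧ N (3 * 59 * 7) ≤ 5 := by
  have h1 : 7 ≤ N (3 * 59 * 5) := N_885
  have h2 : N (3 * 59 * 7) ≤ 5 := N_1239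
  refine ⟨?_, h1, h2⟩
  intro h
  have hsq : Squarefree (3 * 59) := (Nat.squarefree_mul (by norm_num)).2
    ⟨Nat.prime_three.squarefree, (show Nat.Prime 59 by norm_num).squarefree⟩
  have h3 := h (3 * 59) hsq (by decide) (by norm_num) 5 7 (by norm_num) (by norm_num) (by norm_num)
    (by norm_num) (by norm_num)
  omega

end Pool.Agent.Results.MP_99db3a_nt.NotMonotone
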